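import Pool.Agent.H232.QT.D1

set_option autoImplicit false

/-!
# Task FC: convexity of `Ci α (2 φ)` in `1 / cos φ`
-/

namespace Pool.Agent.H825.QT

open Set Filter Topology
open Pool.Agent.H232.QT
open scoped Real

section

variable {α : ℝ} (h0 : 0 < α) (h1 : α < π / 2)

include h0 h1

theorem q_gt_one : 1 < qa α := by
  unfold qa
  rw [one_lt_div (by linarith [Real.pi_pos])]
  linarith

theorem q_lt_two : qa α < 2 := by
  unfold qa
  rw [div_lt_iff₀ (by linarith [Real.pi_pos])]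
  linarith

theorem q_mul : qa α * α = π * (qa α - 1) := by
  unfold qa
  have : π - α ≠ 0 := by linarith [Real.pi_pos]
  field_simp
  ring

theorem K_pos : 0 < qa α / 2 * Real.sin (qa α * α) := by
  have a1 := q_gt_one h0 h1
  have a2 := q_lt_two h0 h1
  have a3 := Real.pi_pos
  apply mul_pos (by linarith)
  rw [q_mul h0 h1]
  apply Real.sin_pos_of_pos_of_lt_pi
  · apply mul_pos a3
    linarith
  · nlinarith

theorem X_lt {φ : ℝ} (h : φ + α < π / 2) : qa α * (2 * φ) < π * (2 - qa α) := by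
  have a1 := q_gt_one h0 h1
  have a2 := q_mul h0 h1
  have : qa α * (2 * φ) < qa α * (π - 2 * α) := by
    apply mul_lt_mul_of_pos_left _ (by linarith)
    linarith
  nlinarith

theorem X_lt_pi {φ : ℝ} (h : φ + α < π / 2) : qa α * (2 * φ) < π := by
  have a1 := q_gt_one h0 h1
  have a3 := Real.pi_pos
  have := X_lt h0 h1 h
  nlinarith

theorem D_pos {φ : ℝ} (hφ : 0 ≤ φ) (h : φ + α < π / 2) :
    0 < Real.cos (qa α * (2 * φ)) + Real.cos (qa α * α) := by
  have a1 := q_gt_one h0 h1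
  have a2 := q_lt_two h0 h1
  have a3 := Real.pi_pos
  have e : Real.cos (qa α * α) = -Real.cos (π * (2 - qa α)) := by
    rw [q_mul h0 h1, ← Real.cos_pi_sub]
    congr 1
    ring
  rw [e]
  have := Real.cos_lt_cos_of_nonneg_of_le_pi (x := qa α * (2 * φ)) (y := π * (2 - qa α))
    (by positivity) (by nlinarith) (X_lt h0 h1 h)
  linarith

/-- the derivative of `Ci α (2 φ)` -/
theorem hasDerivAt_ci {φ : ℝ} (hφ : 0 ≤ φ) (h : φ + α < π / 2) :
    HasDerivAt (fun φ => Ci α (2 * φ))
      (qa α / 2 * Real.sin (qa α * α) * (2 * qa α * Real.sin (qa α * (2 * φ))) /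
        (Real.cos (qa α * (2 * φ)) + Real.cos (qa α * α)) ^ 2) φ := by
  have hD := D_pos h0 h1 hφ h
  have e1 : HasDerivAt (fun φ : ℝ => qa α * (2 * φ)) (qa α * 2) φ := by
    have := ((hasDerivAt_id φ).const_mul 2).const_mul (qa α)
    simpa using this
  have e2 : HasDerivAt (fun φ : ℝ => Real.cos (qa α * (2 * φ)) + Real.cos (qa α * α))
      (-Real.sin (qa α * (2 * φ)) * (qa α * 2)) φ := e1.cos.add_const _
  have e3 := (hasDerivAt_const φ (qa α / 2 * Real.sin (qa α * α))).div e2 hD.ne'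
  refine e3.congr_deriv ?_
  congr 1
  ring

/-- the logarithm of the derivative with respect to `1 / cos φ`, up to a constant -/
noncomputable def LL (α φ : ℝ) : ℝ :=
  Real.log (Real.sin (qa α * (2 * φ))) + 2 * Real.log (Real.cos φ) - Real.log (Real.sin φ) -
    2 * Real.log (Real.cos (qa α * (2 * φ)) + Real.cos (qa α * α))

omit h0 h1 in
theorem cot_lt {z : ℝ} (hz : 0 < z) (hz2 : z < π / 2) : Real.cos z / Real.sin z < 1 / z := by
  have hs : 0 < Real.sin z := Real.sin_pos_of_pos_of_lt_pi hz (by linarith [Real.pi_pos])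
  have hc : 0 < Real.cos z := Real.cos_pos_of_mem_Ioo ⟨by linarith [Real.pi_pos], hz2⟩
  rw [div_lt_div_iff₀ hs hz]
  have := Real.lt_tan hz hz2
  rw [Real.tan_eq_sin_div_cos, lt_div_iff₀ hc] at this
  linarith

theorem key_ineq {φ : ℝ} (hφ : 0 < φ) (h : φ + α < π / 2) :
    0 < Real.cos (qa α * (2 * φ)) / Real.sin (qa α * (2 * φ)) * (qa α * 2) -
      2 * (Real.sin φ / Real.cos φ) - Real.cos φ / Real.sin φ +
      2 * (Real.sin (qa α * (2 * φ)) * (qa α * 2) /
        (Real.cos (qa α * (2 * φ)) + Real.cos (qa α * α))) := by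
  have a1 := q_gt_one h0 h1
  have a3 := Real.pi_pos
  set q := qa α with hq
  set y := q * φ with hy
  have hyp : 0 < y := by positivity
  have hX := X_lt_pi h0 h1 h
  have e2y : q * (2 * φ) = 2 * y := by rw [hy]; ring
  rw [← hq, e2y] at hX
  have hy2 : y < π / 2 := by linarith
  have hφy : φ < y := by nlinarith
  have hφ2 : φ < π / 2 := by linarith
  have sy : 0 < Real.sin y := Real.sin_pos_of_pos_of_lt_pi hyp (by linarith)
  have cy : 0 < Real.cos y := Real.cos_pos_of_mem_Ioo ⟨by linarith, hy2⟩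
  have sφ : 0 < Real.sin φ := Real.sin_pos_of_pos_of_lt_pi hφ (by linarith)
  have cφ : 0 < Real.cos φ := Real.cos_pos_of_mem_Ioo ⟨by linarith, hφ2⟩
  have hD := D_pos h0 h1 hφ.le h
  rw [← hq, e2y] at hD
  rw [e2y]
  have s2y : Real.sin (2 * y) = 2 * Real.sin y * Real.cos y := Real.sin_two_mul y
  have c2y : Real.cos (2 * y) = 2 * Real.cos y ^ 2 - 1 := Real.cos_two_mul y
  -- the last term
  have b1 : Real.sin y / Real.cos y ≤
      Real.sin (2 * y) / (Real.cos (2 * y) + Real.cos (q * α)) := by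
    rw [div_le_div_iff₀ cy hD, s2y, c2y]
    have := Real.cos_le_one (q * α)
    nlinarith [mul_pos sy cy]
  -- the tangents
  have b2 : Real.sin φ / Real.cos φ ≤ q * (Real.sin y / Real.cos y) := by
    have t1 : Real.tan φ ≤ Real.tan y :=
      (Real.tan_lt_tan_of_nonneg_of_lt_pi_div_two hφ.le hy2 hφy).le
    rw [Real.tan_eq_sin_div_cos, Real.tan_eq_sin_div_cos] at t1
    have t2 : 0 < Real.sin y / Real.cos y := div_pos sy cy
    nlinarith
  have b3 : Real.cos φ / Real.sin φ < q * (1 / y) := by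
    have t1 := cot_lt hφ hφ2
    have t2 : q * (1 / y) = 1 / φ := by
      rw [hy]
      field_simp
    rw [t2]
    exact t1
  have b4 : 1 / y ≤ Real.cos y / Real.sin y + Real.sin y / Real.cos y := by
    have t1 : Real.cos y / Real.sin y + Real.sin y / Real.cos y = 1 / (Real.sin y * Real.cos y) := by
      field_simp
      rw [add_comm]
      exact Real.sin_sq_add_cos_sq y
    rw [t1]
    apply one_div_le_one_div_of_le (by positivity)
    have t2 := Real.sin_le (show 0 ≤ 2 * y by positivity)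
    rw [s2y] at t2
    linarith
  have b5 : Real.cos (2 * y) / Real.sin (2 * y) =
      (Real.cos y / Real.sin y - Real.sin y / Real.cos y) / 2 := by
    rw [s2y, c2y]
    field_simp
    nlinarith [Real.sin_sq_add_cos_sq y]
  rw [b5]
  have b6 : Real.sin (2 * y) * (q * 2) / (Real.cos (2 * y) + Real.cos (q * α)) =
      2 * q * (Real.sin (2 * y) / (Real.cos (2 * y) + Real.cos (q * α))) := by ring
  rw [b6]
  have b7 := mul_le_mul_of_nonneg_left b1 (show 0 ≤ 2 * q by linarith)
  have b8 := mul_le_mul_of_nonneg_left b4 (show 0 ≤ q by linarith)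
  nlinarith

theorem LL_strictMono : StrictMonoOn (LL α) (Ioo 0 (π / 2 - α)) := by
  have hd : ∀ φ ∈ Ioo 0 (π / 2 - α), HasDerivAt (LL α)
      (Real.cos (qa α * (2 * φ)) / Real.sin (qa α * (2 * φ)) * (qa α * 2) -
      2 * (Real.sin φ / Real.cos φ) - Real.cos φ / Real.sin φ +
      2 * (Real.sin (qa α * (2 * φ)) * (qa α * 2) /
        (Real.cos (qa α * (2 * φ)) + Real.cos (qa α * α)))) φ := by
    rintro φ ⟨hφ, hφ'⟩
    have h : φ + α < π / 2 := by linarith
    have a1 := q_gt_one h0 h1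
    have a3 := Real.pi_pos
    have sX : 0 < Real.sin (qa α * (2 * φ)) :=
      Real.sin_pos_of_pos_of_lt_pi (by positivity) (X_lt_pi h0 h1 h)
    have sφ : 0 < Real.sin φ := Real.sin_pos_of_pos_of_lt_pi hφ (by linarith)
    have cφ : 0 < Real.cos φ := Real.cos_pos_of_mem_Ioo ⟨by linarith, by linarith⟩
    have hD := D_pos h0 h1 hφ.le h
    have e1 : HasDerivAt (fun φ : ℝ => qa α * (2 * φ)) (qa α * 2) φ := by
      have := ((hasDerivAt_id φ).const_mul 2).const_mul (qa α)
      simpa using this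
    have e2 := e1.sin.log sX.ne'
    have e3 := ((Real.hasDerivAt_cos φ).log cφ.ne').const_mul 2
    have e4 := (Real.hasDerivAt_sin φ).log sφ.ne'
    have e5 := ((e1.cos.add_const (Real.cos (qa α * α))).log hD.ne').const_mul 2
    refine (((e2.add e3).sub e4).sub e5).congr_deriv ?_
    ring
  apply strictMonoOn_of_deriv_pos (convex_Ioo _ _)
  · exact fun φ hφ => (hd φ hφ).continuousAt.continuousWithinAt
  · intro φ hφ
    rw [interior_Ioo] at hφ
    rw [(hd φ hφ).deriv]
    exact key_ineq h0 h1 hφ.1 (by linarith [hφ.2])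

/-- the function `G` -/
noncomputable def GG (α s : ℝ) : ℝ := Ci α (2 * Real.arccos s⁻¹)

theorem arccos_mem {s : ℝ} (hs : 1 ≤ s) (hs2 : s < 1 / Real.sin α) :
    0 ≤ Real.arccos s⁻¹ ∧ Real.arccos s⁻¹ + α < π / 2 := by
  refine ⟨Real.arccos_nonneg _, ?_⟩
  have sα : 0 < Real.sin α := Real.sin_pos_of_pos_of_lt_pi h0 (by linarith)
  have h2 : Real.sin α < s⁻¹ := by
    rw [lt_div_iff₀ sα] at hs2
    rw [lt_inv_comm₀ sα (by linarith), inv_eq_one_div, lt_div_iff₀ sα]
    exact hs2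
  have h3 : s⁻¹ ≤ 1 := inv_le_one_of_one_le₀ hs
  have h4 : Real.arccos s⁻¹ < Real.arccos (Real.sin α) :=
    Real.arccos_lt_arccos (by linarith [Real.neg_one_le_sin α]) h2 h3
  have h5 : Real.arccos (Real.sin α) = π / 2 - α := by
    rw [← Real.cos_pi_div_two_sub, Real.arccos_cos (by linarith) (by linarith)]
  linarith

theorem GG_deriv {s : ℝ} (hs : 1 < s) (hs2 : s < 1 / Real.sin α) :
    HasDerivAt (GG α) (qa α / 2 * Real.sin (qa α * α) * (2 * qa α) *
      Real.exp (LL α (Real.arccos s⁻¹))) s := by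
  obtain ⟨k1, k2⟩ := arccos_mem h0 h1 hs.le hs2
  set φ := Real.arccos s⁻¹ with hφ
  have hsp : 0 < s := by linarith
  have x1 : s⁻¹ < 1 := inv_lt_one_of_one_lt₀ hs
  have x0 : 0 < s⁻¹ := inv_pos.2 hsp
  have hφ0 : 0 < φ := Real.arccos_pos.2 x1
  have hc : Real.cos φ = s⁻¹ := Real.cos_arccos (by linarith) x1.le
  have hsn : Real.sin φ = √(1 - s⁻¹ ^ 2) := Real.sin_arccos _
  have a1 := q_gt_one h0 h1
  have a3 := Real.pi_pos
  have sX : 0 < Real.sin (qa α * (2 * φ)) :=
    Real.sin_pos_of_pos_of_lt_pi (by positivity) (X_lt_pi h0 h1 k2)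
  have sφ : 0 < Real.sin φ := Real.sin_pos_of_pos_of_lt_pi hφ0 (by linarith)
  have cφ : 0 < Real.cos φ := by rw [hc]; exact x0
  have hD := D_pos h0 h1 k1 k2
  have e1 : HasDerivAt (fun s : ℝ => Real.arccos s⁻¹) (Real.cos φ ^ 2 / Real.sin φ) s := by
    have i1 := (hasDerivAt_inv hsp.ne')
    have i2 := (Real.hasDerivAt_arccos (x := s⁻¹) (by linarith) (by linarith)).comp s i1
    refine i2.congr_deriv ?_
    rw [← hsn, hc]
    field_simp
  have e2 := (hasDerivAt_ci h0 h1 k1 k2).comp s e1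
  refine e2.congr_deriv ?_
  have e3 : Real.exp (LL α φ) = Real.sin (qa α * (2 * φ)) * Real.cos φ ^ 2 / Real.sin φ /
      (Real.cos (qa α * (2 * φ)) + Real.cos (qa α * α)) ^ 2 := by
    unfold LL
    rw [Real.exp_sub, Real.exp_sub, Real.exp_add, Real.exp_log sX, Real.exp_log sφ,
      two_mul (Real.log (Real.cos φ)), Real.exp_add, Real.exp_log cφ,
      two_mul (Real.log (Real.cos (qa α * (2 * φ)) + Real.cos (qa α * α))), Real.exp_add,
      Real.exp_log hD, sq, sq]
  rw [e3]
  field_simp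

end

/-- **Task FC.** -/
theorem h_FC : S_FC := by
  intro α h0 h1
  have a3 := Real.pi_pos
  have sα : 0 < Real.sin α := Real.sin_pos_of_pos_of_lt_pi h0 (by linarith)
  have a1 := q_gt_one h0 h1
  have hK := K_pos h0 h1
  have hcont : ContinuousOn (GG α) (Ico 1 (1 / Real.sin α)) := by
    intro s hs
    obtain ⟨k1, k2⟩ := arccos_mem h0 h1 hs.1 hs.2
    have c1 : ContinuousAt (fun s : ℝ => Real.arccos s⁻¹) s :=
      Real.continuous_arccos.continuousAt.comp (continuousAt_inv₀ (by linarith [hs.1]))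
    have c2 : ContinuousAt (fun φ => Ci α (2 * φ)) (Real.arccos s⁻¹) :=
      (hasDerivAt_ci h0 h1 k1 k2).continuousAt
    exact (ContinuousAt.comp (f := fun s : ℝ => Real.arccos s⁻¹) c2 c1).continuousWithinAt
  refine ⟨GG α, ?_, ?_, ?_⟩
  · apply StrictMonoOn.strictConvexOn_of_deriv (convex_Ico _ _) hcont
    rw [interior_Ico]
    intro s hs t ht hst
    rw [(GG_deriv h0 h1 hs.1 hs.2).deriv, (GG_deriv h0 h1 ht.1 ht.2).deriv]
    apply mul_lt_mul_of_pos_left _ (by positivity)
    apply Real.exp_lt_exp.2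
    have hs1 : s⁻¹ < 1 := inv_lt_one_of_one_lt₀ hs.1
    have ht1 : t⁻¹ < 1 := inv_lt_one_of_one_lt₀ ht.1
    have ht0 : 0 < t⁻¹ := inv_pos.2 (by linarith [ht.1])
    have hts : t⁻¹ < s⁻¹ := by
      apply inv_strictAnti₀ (by linarith [hs.1]) hst
    apply LL_strictMono h0 h1
    · exact ⟨Real.arccos_pos.2 hs1, by linarith [(arccos_mem h0 h1 hs.1.le hs.2).2]⟩
    · exact ⟨Real.arccos_pos.2 ht1, by linarith [(arccos_mem h0 h1 ht.1.le ht.2).2]⟩
    · exact Real.arccos_lt_arccos (by linarith) hts hs1.le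
  · apply strictMonoOn_of_deriv_pos (convex_Ico _ _) hcont
    intro s hs
    rw [interior_Ico] at hs
    rw [(GG_deriv h0 h1 hs.1 hs.2).deriv]
    positivity
  · intro φ hφ h
    unfold GG
    rw [one_div, inv_inv, Real.arccos_cos hφ (by linarith)]

end Pool.Agent.H825.QT
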